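import Pool.Agent.H362P.Asp3
import Pool.Agent.H974R2.Infinite

/-!
Critical bond percolation on the square lattice: the crossing probability of a rectangle is, at all
scales, a strictly decreasing and bi-Lipschitz function of the aspect ratio, and so is every
subsequential scaling limit: the logarithmic derivative in the aspect ratio lies between two
negative constants.
-/

namespace Pool.Agent.Results.MP_35f495_pr.AspectRatio

open MeasureTheory Filter Topology

/-- The square lattice: two points of `ℤ²` are adjacent when they differ by one in exactly one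
coordinate. -/
def Z2 : SimpleGraph (ℤ × ℤ) where
  Adj u v := |u.1 - v.1| + |u.2 - v.2| = 1
  symm := ⟨fun u v h => by rw [abs_sub_comm v.1, abs_sub_comm v.2]; exact h⟩
  loopless := ⟨fun u h => by simp at h⟩

/-- Critical bond percolation: every edge of the square lattice is open (`true`) with
probability `1/2`, independently of the other edges. -/
noncomputable def crit : Measure (Z2.edgeSet → Bool) :=
  Measure.infinitePi (fun _ => ProbabilityTheory.bernoulliMeasure true false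
    ⟨1/2, by norm_num, by norm_num⟩)

/-- The graph of the open edges inside the rectangle `[0,w] × [0,n]`. -/
def rectGraph (w n : ℕ) (ω : Z2.edgeSet → Bool) : SimpleGraph (ℤ × ℤ) :=
  SimpleGraph.fromEdgeSet {e | (∃ h : e ∈ Z2.edgeSet, ω ⟨e, h⟩ = true) ∧
    ∀ v ∈ e, (0 ≤ v.1 ∧ v.1 ≤ w) ∧ (0 ≤ v.2 ∧ v.2 ≤ n)}

/-- An open path inside the rectangle `[0,w] × [0,n]` joins its left side to its right side. -/
def Crossed (w n : ℕ) (ω : Z2.edgeSet → Bool) : Prop :=
  ∃ y y' : ℤ, (0 ≤ y ∧ y ≤ n) ∧ (0 ≤ y' ∧ y' ≤ n) ∧ (rectGraph w n ω).Reachable (0, y) (w, y')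

/-- The crossing probability. -/
noncomputable def cross (w n : ℕ) : ℝ := crit.real {ω | Crossed w n ω}

open H974 in
theorem rect_adj (w n : ℕ) (ω : Z2.edgeSet → Bool) (u v : ℤ × ℤ) :
    (rectGraph w n ω).Adj u v ↔ H974.Adj ((opn ω) ∩ ↑(RE 0 w 0 n)) u v := by
  have inbox : ∀ e : Edg, e ∈ RE 0 w 0 n ↔
      (((0 ≤ (src e).1 ∧ (src e).1 ≤ w) ∧ (0 ≤ (src e).2 ∧ (src e).2 ≤ n)) ∧
        ((0 ≤ (tgt e).1 ∧ (tgt e).1 ≤ w) ∧ (0 ≤ (tgt e).2 ∧ (tgt e).2 ≤ n))) := by
    rintro ⟨x, y, _ | _⟩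
    · rw [mem_RE_false, src_mk, tgt_false]
      simp only
      omega
    · rw [mem_RE_true, src_mk, tgt_true]
      simp only
      omega
  unfold rectGraph
  rw [SimpleGraph.fromEdgeSet_adj]
  constructor
  · rintro ⟨⟨⟨h, hω⟩, hbox⟩, -⟩
    obtain ⟨e, he⟩ := adj_edge (show sqLattice.Adj u v from (SimpleGraph.mem_edgeSet _).mp h)
    have hs : s(src e, tgt e) = s(u, v) := by
      rcases he with ⟨h1, h2⟩ | ⟨h1, h2⟩
      · rw [h1, h2]
      · rw [h1, h2]; exact Sym2.eq_swap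
    have ht : toE e = ⟨s(u, v), h⟩ := Subtype.ext hs
    refine ⟨e, ⟨?_, ?_⟩, he⟩
    · show ω (toE e) = true
      rw [ht]; exact hω
    · rw [Finset.mem_coe, inbox]
      constructor
      · apply hbox
        rw [← hs]
        exact Sym2.mem_mk_left _ _
      · apply hbox
        rw [← hs]
        exact Sym2.mem_mk_right _ _
  · rintro ⟨e, ⟨he, hb⟩, hcase⟩
    have hs : s(u, v) = s(src e, tgt e) := by
      rcases hcase with ⟨h1, h2⟩ | ⟨h1, h2⟩
      · rw [h1, h2]
      · rw [h1, h2]; exact Sym2.eq_swap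
    refine ⟨?_, ?_⟩
    · show (∃ h : s(u, v) ∈ Z2.edgeSet, ω ⟨s(u, v), h⟩ = true) ∧
        ∀ z ∈ s(u, v), (0 ≤ z.1 ∧ z.1 ≤ (w : ℤ)) ∧ (0 ≤ z.2 ∧ z.2 ≤ (n : ℤ))
      rw [hs]
      refine ⟨⟨edge_mem e, he⟩, ?_⟩
      rw [Finset.mem_coe, inbox] at hb
      intro z hz
      rcases Sym2.mem_iff.mp hz with rfl | rfl
      · exact hb.1
      · exact hb.2
    · rintro rfl
      exact Adj_irrefl (⟨e, he, hcase⟩ : H974.Adj (opn ω) u u)

open H974 in
theorem rect_reach (w n : ℕ) (ω : Z2.edgeSet → Bool) (u v : ℤ × ℤ) :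
    (rectGraph w n ω).Reachable u v ↔ Reach ((opn ω) ∩ ↑(RE 0 w 0 n)) u v := by
  rw [SimpleGraph.reachable_iff_reflTransGen]
  have : (rectGraph w n ω).Adj = H974.Adj ((opn ω) ∩ ↑(RE 0 w 0 n)) := by
    funext u v
    exact propext (rect_adj w n ω u v)
  rw [this]
  rfl

open H974 in
theorem cross_eq {w : ℕ} (hw : 1 ≤ w) (n : ℕ) : cross w n = H362A.H w n := by
  have h1 : {ω : Z2.edgeSet → Bool | Crossed w n ω} =
      {ω | LRc 0 w 0 n (FF (RE 0 w 0 n) ω)} := by
    ext ω
    show Crossed w n ω ↔ LRc 0 w 0 n (FF (RE 0 w 0 n) ω)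
    unfold Crossed
    simp only [rect_reach]
    constructor
    · rintro ⟨y, y', hy, hy', hr⟩
      refine LRc_of_reach (u := (0, y)) (v := ((w : ℤ), y')) (by exact_mod_cast hw) ?_ rfl rfl
      refine hr.mono ?_
      intro e he
      have h0 : e ∈ FF (RE 0 w 0 n) ω := mem_FF.mpr ⟨Finset.mem_coe.mp he.2, he.1⟩
      exact ⟨Finset.mem_coe.mpr h0, he.2⟩
    · rintro ⟨y, y', hy, hy', hr⟩
      refine ⟨y, y', hy, hy', hr.mono ?_⟩
      intro e he
      have h0 := mem_FF.mp (Finset.mem_coe.mp he.1)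
      exact ⟨h0.2, Finset.mem_coe.mpr h0.1⟩
  have h2 : cross w n = (bondLaw hlf).real {ω | LRc 0 w 0 n (FF (RE 0 w 0 n) ω)} := by
    unfold cross
    rw [h1]
    rfl
  rw [h2, law_event hlf (RE 0 w 0 n) (LRc 0 w 0 n)]
  have h3 := pr_LRc (1 / 2) (a := 0) (b := (w : ℤ)) (c := 0) (d := (n : ℤ))
    (S := RE 0 w 0 n) LRE_subset_RE
  rw [sub_zero, sub_zero] at h3
  exact h3

/-- **Crossing probabilities as functions of the aspect ratio.** For every `K` there are positive
constants `c`, `C` such that (1) for all rectangles whose height `n` is at most `K` times the width,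
increasing the width from `w` to `w'` multiplies the crossing probability by a factor between
`exp (-C (w' - w) / n)` and `exp (-c (w' - w) / n)`; (2) for every subsequential scaling limit `Q`
of the crossing probabilities (`Q l` is the limit for the aspect ratio `l`), `0 < Q l < 1` and
`exp (-C (l' - l)) Q l ≤ Q l' ≤ exp (-c (l' - l)) Q l` for all `1 / K ≤ l ≤ l'`. -/
theorem result (K : ℕ) (hK : 1 ≤ K) : ∃ c C : ℝ, 0 < c ∧ 0 < C ∧
    (∀ w w' n : ℕ, 1 ≤ n → w ≤ w' → n ≤ K * w →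
      Real.exp (-(C * ((w' : ℝ) - w) / n)) * cross w n ≤ cross w' n ∧
      cross w' n ≤ Real.exp (-(c * ((w' : ℝ) - w) / n)) * cross w n) ∧
    (∀ (n : ℕ → ℕ) (Q : ℝ → ℝ), Tendsto n atTop atTop →
      (∀ l : ℝ, 0 < l → Tendsto (fun i => cross ⌊l * n i⌋₊ (n i)) atTop (𝓝 (Q l))) →
      ∀ l l' : ℝ, 1 / (K : ℝ) ≤ l → l ≤ l' → 0 < Q l ∧ Q l < 1 ∧
        Real.exp (-(C * (l' - l))) * Q l ≤ Q l' ∧
        Q l' ≤ Real.exp (-(c * (l' - l))) * Q l) := by
  obtain ⟨c, C, hc, hC, h⟩ := H362A.expo (2 * K) (by omega)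
  refine ⟨c, C, hc, hC, ?_, ?_⟩
  · intro w w' n hn hww hnw
    have hw : 1 ≤ w := by
      rcases Nat.eq_zero_or_pos w with h0 | h0
      · rw [h0] at hnw; omega
      · exact h0
    rw [cross_eq hw, cross_eq (hw.trans hww)]
    exact h w w' n hn hww (hnw.trans (Nat.mul_le_mul_right _ (by omega)))
  · intro n Q hn hQ l l' hl hll
    refine H362A.scaling hK h hn (Q := Q) ?_ hl hll
    intro x hx
    refine (hQ x hx).congr' ?_
    have h1 : Tendsto (fun i => x * (n i : ℝ)) atTop atTop :=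
      (tendsto_natCast_atTop_atTop.comp hn).const_mul_atTop hx
    filter_upwards [h1.eventually_ge_atTop 1] with i hi
    exact cross_eq (Nat.le_floor (by exact_mod_cast hi)) (n i)

end Pool.Agent.Results.MP_35f495_pr.AspectRatio
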