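import Pool.Agent.H362P.Fin
import Pool.Agent.H160R2.SA.Arm

/-!
Critical bond percolation on the square lattice: the probability that `k` given vertices belong to
the same open cluster, for every `k` and for all positions of the vertices, up to a factor which is
exponential in `k`. The exponent is `5 / 48`; in particular the two-point function is of order
`|x - y| ^ (-5 / 24)` and the three-point function is of order
`(|x - y| |y - z| |z - x|) ^ (-5 / 48)`, the form predicted by conformal covariance.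
-/

namespace Pool.Agent.Results.MP_35f495_pr.ConnectionFunctions

open MeasureTheory Finset

/-- The square lattice: two points of `ℤ²` are adjacent when they differ by one in exactly one
coordinate. -/
def Z2 : SimpleGraph (ℤ × ℤ) where
  Adj u v := |u.1 - v.1| + |u.2 - v.2| = 1
  symm := ⟨fun u v h => by rw [abs_sub_comm v.1, abs_sub_comm v.2]; exact h⟩
  loopless := ⟨fun u h => by simp at h⟩

/-- Critical bond percolation: every edge of the square lattice is open (`true`) with
probability `1/2`, independently of the other edges. -/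
noncomputable def crit : Measure (Z2.edgeSet → Bool) :=
  Measure.infinitePi (fun _ => ProbabilityTheory.bernoulliMeasure true false
    ⟨1/2, by norm_num, by norm_num⟩)

/-- The graph of the open edges. -/
def openGraph (ω : Z2.edgeSet → Bool) : SimpleGraph (ℤ × ℤ) :=
  SimpleGraph.fromEdgeSet {e | ∃ h : e ∈ Z2.edgeSet, ω ⟨e, h⟩ = true}

/-- The probability that all the vertices of `X` belong to the same open cluster. -/
noncomputable def conn (X : Finset (ℤ × ℤ)) : ℝ :=
  crit.real {ω | ∀ u ∈ X, ∀ v ∈ X, (openGraph ω).Reachable u v}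

/-- The sup distance. -/
def dist (u v : ℤ × ℤ) : ℕ := max (u.1 - v.1).natAbs (u.2 - v.2).natAbs

/-- `a` is the distance from `x` to `X`. -/
def IsGap (x : ℤ × ℤ) (X : Finset (ℤ × ℤ)) (a : ℕ) : Prop :=
  IsLeast {d : ℕ | ∃ u ∈ X, d = dist x u} a

/-- `D` is the diameter of `X`. -/
def IsDiam (X : Finset (ℤ × ℤ)) (D : ℕ) : Prop :=
  IsGreatest {d : ℕ | ∃ u ∈ X, ∃ v ∈ X, d = dist u v} D

/-- The price of adding, at distance `a`, a vertex to a set of diameter `D`: it is
`a ^ (-5/48)` if `a ≤ max D 1`, and `a ^ (-5/24) * (max D 1) ^ (5/48)` otherwise. -/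
noncomputable def factor (a D : ℕ) : ℝ :=
  ((a : ℝ) * max 1 ((a : ℝ) / (max D 1 : ℕ))) ^ (-(5 / 48 : ℝ))

theorem conn_eq (X : Finset (ℤ × ℤ)) : conn X = H362P.PX X := by
  have h : conn X = (H974.bondLaw H974.hlf).real
      {ω | ∀ u ∈ X, ∀ v ∈ X, (H974.openGraph ω).Reachable u v} := rfl
  rw [h]
  unfold H362P.PX H362P.Cn
  simp only [H974.open_reach]

theorem conn_two (x y : ℤ × ℤ) :
    crit.real {ω | (openGraph ω).Reachable x y} = conn {x, y} := by
  unfold conn
  congr 1
  ext ω
  show (openGraph ω).Reachable x y ↔ ∀ u ∈ ({x, y} : Finset (ℤ × ℤ)), ∀ v ∈ ({x, y} : Finset (ℤ × ℤ)),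
    (openGraph ω).Reachable u v
  constructor
  · intro h u hu v hv
    rw [Finset.mem_insert, Finset.mem_singleton] at hu hv
    rcases hu with rfl | rfl <;> rcases hv with rfl | rfl
    · rfl
    · exact h
    · exact h.symm
    · rfl
  · intro h
    exact h x (by simp) y (by simp)

theorem conn_three (x y z : ℤ × ℤ) :
    crit.real {ω | (openGraph ω).Reachable x y ∧ (openGraph ω).Reachable y z} =
      conn {x, y, z} := by
  unfold conn
  congr 1
  ext ω
  show ((openGraph ω).Reachable x y ∧ (openGraph ω).Reachable y z) ↔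
    ∀ u ∈ ({x, y, z} : Finset (ℤ × ℤ)), ∀ v ∈ ({x, y, z} : Finset (ℤ × ℤ)),
      (openGraph ω).Reachable u v
  constructor
  · rintro ⟨h1, h2⟩
    have key : ∀ u ∈ ({x, y, z} : Finset (ℤ × ℤ)), (openGraph ω).Reachable u y := by
      intro u hu
      simp only [Finset.mem_insert, Finset.mem_singleton] at hu
      rcases hu with rfl | rfl | rfl
      · exact h1
      · rfl
      · exact h2.symm
    intro u hu v hv
    exact (key u hu).trans (key v hv).symm
  · intro h
    exact ⟨h x (by simp) y (by simp), h y (by simp) z (by simp)⟩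

/-- **Connection probabilities of critical bond percolation on `ℤ²`.**
(1) Adding a vertex to a finite set. (2) `k + 1` vertices `x 0, …, x k` in any order: `a i` is the
distance from `x (i + 1)` to the previous vertices and `D i` is the diameter of the set of the
previous vertices. (3) Two vertices. (4) Three vertices. -/
theorem result : ∃ c C : ℝ, 0 < c ∧ 0 < C ∧
    (∀ (X : Finset (ℤ × ℤ)) (x : ℤ × ℤ) (a D : ℕ), x ∉ X → IsGap x X a → IsDiam X D →
      c * factor a D * conn X ≤ conn (insert x X) ∧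
      conn (insert x X) ≤ C * factor a D * conn X) ∧
    (∀ (k : ℕ) (x : ℕ → ℤ × ℤ) (a D : ℕ → ℕ),
      (∀ i < k, x (i + 1) ∉ (range (i + 1)).image x) →
      (∀ i < k, IsGap (x (i + 1)) ((range (i + 1)).image x) (a i)) →
      (∀ i < k, IsDiam ((range (i + 1)).image x) (D i)) →
      ∏ i ∈ range k, (c * factor (a i) (D i)) ≤ conn ((range (k + 1)).image x) ∧
      conn ((range (k + 1)).image x) ≤ ∏ i ∈ range k, (C * factor (a i) (D i))) ∧
    (∀ x y : ℤ × ℤ, x ≠ y →
      c * (dist x y : ℝ) ^ (-(5 / 24 : ℝ)) ≤ crit.real {ω | (openGraph ω).Reachable x y} ∧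
      crit.real {ω | (openGraph ω).Reachable x y} ≤ C * (dist x y : ℝ) ^ (-(5 / 24 : ℝ))) ∧
    (∀ x y z : ℤ × ℤ, x ≠ y → y ≠ z → z ≠ x →
      c * ((dist x y : ℝ) * dist y z * dist z x) ^ (-(5 / 48 : ℝ)) ≤
        crit.real {ω | (openGraph ω).Reachable x y ∧ (openGraph ω).Reachable y z} ∧
      crit.real {ω | (openGraph ω).Reachable x y ∧ (openGraph ω).Reachable y z} ≤
        C * ((dist x y : ℝ) * dist y z * dist z x) ^ (-(5 / 48 : ℝ))) := by
  have hAr : Pool.Agent.H389R2.CD.ArS := Pool.Agent.H160R2.SA.arSharp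
  obtain ⟨c1, C1, hc1, hC1, h1⟩ := H362P.add_point hAr
  obtain ⟨c2, C2, hc2, hC2, h2⟩ := H362P.two_point hAr
  obtain ⟨c3, C3, hc3, hC3, h3⟩ := H362P.three_point hAr
  set c := min c1 (min c2 c3) with hc
  set C := max C1 (max C2 C3) with hC
  have e1 : c ≤ c1 := min_le_left _ _
  have e2 : c ≤ c2 := (min_le_right _ _).trans (min_le_left _ _)
  have e3 : c ≤ c3 := (min_le_right _ _).trans (min_le_right _ _)
  have E1 : C1 ≤ C := le_max_left _ _
  have E2 : C2 ≤ C := (le_max_left _ _).trans (le_max_right _ _)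
  have E3 : C3 ≤ C := (le_max_right _ _).trans (le_max_right _ _)
  have hc0 : 0 < c := lt_min hc1 (lt_min hc2 hc3)
  have hC0 : 0 < C := lt_of_lt_of_le hC1 E1
  have g1 : ∀ (X : Finset (ℤ × ℤ)) (x : ℤ × ℤ) (a D : ℕ), x ∉ X → H362P.Near x X a →
      H362P.Diam X D → c * H362P.fac a D * H362P.PX X ≤ H362P.PX (insert x X) ∧
      H362P.PX (insert x X) ≤ C * H362P.fac a D * H362P.PX X := by
    intro X x a D hx ha hD
    obtain ⟨i1, i2⟩ := h1 X x a D hx ha hD
    have p : 0 ≤ H362P.fac a D * H362P.PX X :=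
      mul_nonneg (H362P.fac_nonneg a D) (H362P.PX_nonneg X)
    rw [mul_assoc] at i1 i2 ⊢
    rw [mul_assoc]
    exact ⟨(mul_le_mul_of_nonneg_right e1 p).trans i1, i2.trans (mul_le_mul_of_nonneg_right E1 p)⟩
  refine ⟨c, C, hc0, hC0, ?_, ?_, ?_, ?_⟩
  · intro X x a D hx ha hD
    rw [conn_eq, conn_eq]
    exact g1 X x a D hx ha hD
  · intro k x a D hi ha hD
    rw [conn_eq]
    exact H362P.k_point hc0 hC0 g1 k x a D hi ha hD
  · intro x y hxy
    rw [conn_two, conn_eq]
    obtain ⟨i1, i2⟩ := h2 x y hxy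
    have p : (0 : ℝ) ≤ (dist x y : ℝ) ^ (-(5 / 24 : ℝ)) := by positivity
    exact ⟨(mul_le_mul_of_nonneg_right e2 p).trans i1, i2.trans (mul_le_mul_of_nonneg_right E2 p)⟩
  · intro x y z hxy hyz hzx
    rw [conn_three, conn_eq]
    obtain ⟨i1, i2⟩ := h3 x y z hxy hyz hzx
    have p : (0 : ℝ) ≤ ((dist x y : ℝ) * dist y z * dist z x) ^ (-(5 / 48 : ℝ)) := by positivity
    exact ⟨(mul_le_mul_of_nonneg_right e3 p).trans i1, i2.trans (mul_le_mul_of_nonneg_right E3 p)⟩

end Pool.Agent.Results.MP_35f495_pr.ConnectionFunctions
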