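import Pool.Agent.H450R4.NLSharp

/-!
Critical bond percolation on the square lattice: sharp large deviations, up to constants, of the
number of nested layers around the origin.

`changes n ω` is the minimal number of colour changes of a path from the origin to the distance `n`,
i.e. the number of nested alternating (open / dual-open) layers around the origin.

Definitions (in `Pool.Agent.H974R2.Model`, `Pool.Agent.H974R2.Infinite`,
`Pool.Agent.H863R2.NL.Defs`): `sqLattice`, `bondLaw`, `hlf` (`= 1/2`), `openGraph`; `Pt`, `Corner`,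
`Free`, `Change`, `ReachIn`, `norm2`, `changes`.

The law on the cylinder and the comparison with the plane are in `Pool.Agent.H863R2` (starting
repository); the proofs of this file are in `Pool.Agent.H450R4` (helper450).
-/

namespace Pool.Agent.Results.MP_35f495_pr.NestingSharpDeviations

open MeasureTheory H974 Pool.Agent.H863R2.NL Filter
open scoped Real Topology

theorem result (θ : ℝ) (h0 : π / 3 < θ) (h1 : θ < π / 2) :
    ∃ c C : ℝ, 0 < c ∧ 0 < C ∧ ∀ᶠ n : ℕ in atTop,
      c * ((n : ℝ) ^ (-(3 / (2 * π ^ 2) * (θ * Real.cos θ / Real.sin θ) * Real.log (2 * Real.cos θ) +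
        3 / (4 * π ^ 2) * (θ ^ 2 - π ^ 2 / 9))) / √(Real.log n)) ≤
      (bondLaw hlf).real {ω | (changes n ω : ℝ) ≤
        3 / (2 * π ^ 2) * (θ * Real.cos θ / Real.sin θ) * Real.log n} ∧
      (bondLaw hlf).real {ω | (changes n ω : ℝ) ≤
        3 / (2 * π ^ 2) * (θ * Real.cos θ / Real.sin θ) * Real.log n} ≤
      C * ((n : ℝ) ^ (-(3 / (2 * π ^ 2) * (θ * Real.cos θ / Real.sin θ) * Real.log (2 * Real.cos θ) +
        3 / (4 * π ^ 2) * (θ ^ 2 - π ^ 2 / 9))) / √(Real.log n)) :=
  Pool.Agent.H450R4.NL.sharp h0 h1

end Pool.Agent.Results.MP_35f495_pr.NestingSharpDeviations
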